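import Mathlib
import Pool.Agent.N325.DD.Stm

/-!
# The tail of the density tends to zero
-/

set_option autoImplicit false

namespace Pool.Agent.N885.DD

open Finset Pool.Agent.N325.DD

/-- the inverse as a homomorphism of monoids `ℕ →* ℝ` -/
noncomputable def invHom : ℕ →* ℝ where
  toFun n := ((n : ℝ))⁻¹
  map_one' := by simp
  map_mul' x y := by push_cast; rw [mul_inv]

theorem invHom_apply (n : ℕ) : invHom n = ((n : ℝ))⁻¹ := rfl

theorem kap_pos (K : ℕ) : 0 < kap K := by
  unfold kap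
  apply Finset.prod_pos
  intro p hp
  have hp2 : (2 : ℝ) ≤ p := by exact_mod_cast (Nat.prime_of_mem_primesBelow hp).two_le
  have : 1 / (p : ℝ) ≤ 1 / 2 := by
    apply one_div_le_one_div_of_le <;> linarith
  linarith

theorem sum_W (K X : ℕ) : ∑ s ∈ W K X, 1 / (s : ℝ) =
    ∑ m ∈ Finset.range (X + 1), (Nat.smoothNumbers K).indicator (fun n : ℕ => invHom n) m := by
  classical
  have h1 : ∀ m ∈ Finset.range (X + 1), (Nat.smoothNumbers K).indicator (fun n : ℕ => invHom n) m =
      if m ∈ Nat.smoothNumbers K then 1 / (m : ℝ) else 0 := by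
    intro m _
    rw [Set.indicator_apply]
    split_ifs
    · rw [invHom_apply, one_div]
    · rfl
  rw [Finset.sum_congr rfl h1, ← Finset.sum_filter]
  apply Finset.sum_congr _ (fun _ _ => rfl)
  ext s
  rw [mem_W, Finset.mem_filter, Finset.mem_range]
  constructor
  · rintro ⟨⟨h2, h3⟩, h4⟩
    exact ⟨by omega, Nat.mem_smoothNumbers'.2 fun p hp hd => h4 p hp hd⟩
  · rintro ⟨h2, h3⟩
    have h4 := Nat.ne_zero_of_mem_smoothNumbers h3
    exact ⟨⟨by omega, by omega⟩, fun p hp hd => Nat.mem_smoothNumbers'.1 h3 p hp hd⟩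

theorem eps_lim (K : ℕ) : Filter.Tendsto (fun X : ℕ => eps K X) Filter.atTop (nhds 0) := by
  have h0 : ∀ {p : ℕ}, p.Prime → ‖invHom p‖ < 1 := by
    intro p hp
    rw [invHom_apply, norm_inv, Real.norm_natCast]
    exact inv_lt_one_of_one_lt₀ (by exact_mod_cast hp.one_lt)
  obtain ⟨-, h1⟩ := EulerProduct.summable_and_hasSum_smoothNumbers_prod_primesBelow_geometric
    (f := invHom) (fun {p} hp => h0 hp) K
  have h2 : HasSum ((Nat.smoothNumbers K).indicator (fun n : ℕ => invHom n))
      (∏ p ∈ K.primesBelow, (1 - invHom p)⁻¹) := by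
    rw [← hasSum_subtype_iff_indicator]
    exact h1
  have h3 := h2.tendsto_sum_nat
  have h4 : ∏ p ∈ K.primesBelow, (1 - invHom p)⁻¹ = (kap K)⁻¹ := by
    unfold kap
    rw [← Finset.prod_inv_distrib]
    apply Finset.prod_congr rfl
    intro p _
    rw [invHom_apply, one_div]
  rw [h4] at h3
  have h5 : Filter.Tendsto (fun X : ℕ => ∑ s ∈ W K X, 1 / (s : ℝ)) Filter.atTop
      (nhds ((kap K)⁻¹)) := by
    refine ((Filter.tendsto_add_atTop_iff_nat 1).2 h3).congr fun X => ?_
    rw [sum_W]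
  have h6 := (h5.const_mul (kap K)).const_sub 1
  rw [mul_inv_cancel₀ (kap_pos K).ne', sub_self] at h6
  exact h6

end Pool.Agent.N885.DD
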